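import Pool.Agent.Helper98K9.CP.All

set_option autoImplicit false

/-!
# MP_44e654_pr: no percolation at criticality on the canopy tree times the half-line

All definitions of the statement are in `Pool.Agent.Helper98K9.CP.Perc`:

* `IsCanopy d C l`: `C` is a canopy tree of degree `d` with the level function `l`;
* `halfLine`: the half-line `0, 1, 2, …`; `C.boxProd halfLine` is the Cartesian product (Mathlib);
* `perc G p`: Bernoulli bond percolation on `G`, a measure on `G.edgeSet → Bool`;
* `InfCl G ω x`: the open cluster of `x` is infinite; `theta G x p`: the probability of it;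
* `pc G x`: the infimum of the `p ≤ 1` with `0 < theta G x p`.
-/

namespace Pool.Agent.Results.MP_44e654_pr.NoPercolationAtCriticality

open Pool.Agent.Helper98K9.CP MeasureTheory

/-- The hypothesis of the theorem is satisfied by a concrete graph: the vertices are the pairs
`(k, m)` of natural numbers, `k` is the level and `(k + 1, m / (d - 1))` the parent. -/
theorem exists_canopy (d : ℕ) (hd : 3 ≤ d) : IsCanopy d (canopy d) (fun x => x.1) :=
  isCanopy_canopy d hd

/-- For every `d ≥ 3` and every canopy tree `C` of degree `d`, Bernoulli bond percolation on the
product of `C` and the half-line has almost surely no infinite open cluster at its critical value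
(computed at any vertex `x`), which is less than `1`. -/
theorem result (d : ℕ) (hd : 3 ≤ d) (V : Type) (C : SimpleGraph V) (l : V → ℕ)
    (hC : IsCanopy d C l) (x : V × ℕ) :
    pc (C.boxProd halfLine) x < 1 ∧ theta (C.boxProd halfLine) x (pc (C.boxProd halfLine) x) = 0 ∧
      ∀ᵐ ω ∂(perc (C.boxProd halfLine) (pc (C.boxProd halfLine) x)),
        ∀ y, ¬ InfCl (C.boxProd halfLine) ω y :=
  canopy_final d hd V C l hC x

end Pool.Agent.Results.MP_44e654_pr.NoPercolationAtCriticality
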